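import Pool.Agent.Helper70.ML.St3

/-!
Project ML (MP_a2f62e_al), module PTOR: the torus relations.
-/

set_option autoImplicit false

namespace Pool.Agent.Helper8.ML

open Pool.Agent.Helper70.ML Pool.Agent.Helper75.MX

section

variable {n : ℕ} {F : Type} [Field F] {E : Type} [Group E]

theorem mono_ext {g h : SLn n F} {σ : Equiv.Perm (Fin n)} {c : Fin n → F}
    (hg : Mono g σ c) (hh : Mono h σ c) : g = h := by
  apply Subtype.ext
  ext i j
  rw [hg.2 i j, hh.2 i j]

theorem ker_comm {φ : E →* SLn n F} (hce : CE φ) {z : E} (hz : φ z = 1) (g : E) :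
    g * z = z * g := by
  have h1 : z ∈ Subgroup.center E := hce.2.1 ((MonoidHom.mem_ker).2 hz)
  exact (Subgroup.mem_center_iff.1 h1) g

theorem ker_sq {φ : E →* SLn n F} [Finite E] (hce : CE φ) {z : E} (hz : φ z = 1)
    (hzz : z * z = 1) : z = 1 := by
  have hm : z ∈ φ.ker := (MonoidHom.mem_ker).2 hz
  have h1 : orderOf (⟨z, hm⟩ : φ.ker) ∣ Nat.card φ.ker := orderOf_dvd_natCard _
  have h2 : orderOf (⟨z, hm⟩ : φ.ker) ∣ 2 := by
    apply orderOf_dvd_of_pow_eq_one
    apply Subtype.ext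
    simpa [pow_two] using hzz
  have h3 : orderOf (⟨z, hm⟩ : φ.ker) ∣ 1 := by
    have hc : Nat.Coprime 2 (Nat.card φ.ker) := (Nat.coprime_two_left).2 hce.2.2
    have := Nat.dvd_gcd h2 h1
    rwa [hc] at this
  have h4 : (⟨z, hm⟩ : φ.ker) = 1 := by
    rw [← orderOf_eq_one_iff]
    exact Nat.dvd_one.1 h3
  exact congrArg Subtype.val h4

/-- the commutator -/
def kp (g h : E) : E := g * h * g⁻¹ * h⁻¹

theorem kp_mul {g g' h : E} (hc : ∀ x : E, x * kp g' h = kp g' h * x) :
    kp (g * g') h = kp g h * kp g' h := by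
  have h1 : kp (g * g') h = g * kp g' h * (h * g⁻¹ * h⁻¹) := by
    unfold kp; group
  rw [h1, hc g]
  have h2 : kp g h = g * (h * g⁻¹ * h⁻¹) := by unfold kp; group
  rw [h2, mul_assoc, ← hc (g * (h * g⁻¹ * h⁻¹))]

theorem kp_inv (g h : E) : (kp g h)⁻¹ = kp h g := by
  unfold kp; group

theorem kp_mulr {g h h' : E} (hc : ∀ x : E, x * kp h' g = kp h' g * x)
    (hc2 : ∀ x : E, x * kp h g = kp h g * x) :
    kp g (h * h') = kp g h * kp g h' := by
  rw [← kp_inv, kp_mul hc, mul_inv_rev, kp_inv, kp_inv]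
  have h1 : ∀ x : E, x * kp g h = kp g h * x := by
    intro x
    rw [← kp_inv h g]
    have := hc2 x
    calc x * (kp h g)⁻¹ = (kp h g)⁻¹ * (kp h g * x) * (kp h g)⁻¹ := by group
      _ = (kp h g)⁻¹ * (x * kp h g) * (kp h g)⁻¹ := by rw [this]
      _ = (kp h g)⁻¹ * x := by group
  rw [h1]

theorem kp_z {g h z : E} (hc : ∀ x : E, x * z = z * x) : kp (g * z) h = kp g h := by
  unfold kp
  calc g * z * h * (g * z)⁻¹ * h⁻¹ = g * (z * h) * z⁻¹ * g⁻¹ * h⁻¹ := by group
    _ = g * (h * z) * z⁻¹ * g⁻¹ * h⁻¹ := by rw [hc h]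
    _ = g * h * g⁻¹ * h⁻¹ := by group

theorem kp_zr {g h z : E} (hc : ∀ x : E, x * z = z * x) : kp g (h * z) = kp g h := by
  rw [← kp_inv, kp_z hc, kp_inv]

end

theorem hPTOR (hPMON : StPMON) : StPTOR := by
  intro n F _ _ E _ _ φ X hn hC hW
  classical
  obtain ⟨m1, m2, -, -, m5, -, -, -⟩ := hPMON n F
  have hce := hC.ce
  have kc : ∀ z : E, φ z = 1 → ∀ g : E, g * z = z * g := fun z hz g => ker_comm hce hz g
  have H1 : ∀ i j, Hr X i j 1 = 1 := by
    intro i j; unfold Hr; group
  -- conjugation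
  have hA : ∀ (g : E) (σ : Equiv.Perm (Fin n)) (c : Fin n → F), Mono (φ g) σ c →
      ∀ i j a, i ≠ j → a ≠ 0 →
      g * Hr X i j a * g⁻¹ = Hr X (σ i) (σ j) (c i * (c j)⁻¹ * a) *
        (Hr X (σ i) (σ j) (c i * (c j)⁻¹))⁻¹ := by
    intro g σ c hg i j a hij ha
    have e1 := hW.weqv g σ c hg i j a hij ha
    have e2 := hW.weqv g σ c hg i j 1 hij one_ne_zero
    rw [mul_one] at e2
    unfold Hr
    rw [← e1, ← e2]
    group
  -- images
  have im_mul : ∀ i j a b, i ≠ j → a ≠ 0 → b ≠ 0 →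
      φ (Hr X i j (a * b)) = φ (Hr X i j a) * φ (Hr X i j b) := by
    intro i j a b hij ha hb
    have e1 := hW.hmono i j (a * b) hij (mul_ne_zero ha hb)
    have e2 := m1 _ _ _ _ _ _ (hW.hmono i j a hij ha) (hW.hmono i j b hij hb)
    rw [mul_one] at e2
    refine mono_ext e1 ?_
    have : hc i j (a * b) = fun k => hc i j a ((1 : Equiv.Perm (Fin n)) k) * hc i j b k := by
      funext k
      unfold hc
      simp only [Equiv.Perm.coe_one, id_eq]
      by_cases h1 : k = i
      · simp [h1]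
      · by_cases h2 : k = j
        · simp [h2, hij.symm, mul_comm]
        · simp [h1, h2]
    rw [this]
    exact e2
  have diag_comm : ∀ (x y : SLn n F) (c d : Fin n → F), Mono x 1 c → Mono y 1 d →
      x * y = y * x := by
    intro x y c d hx hy
    have e1 := m1 _ _ _ _ _ _ hx hy
    have e2 := m1 _ _ _ _ _ _ hy hx
    refine mono_ext e1 ?_
    have : (fun j => c ((1 : Equiv.Perm (Fin n)) j) * d j) =
        fun j => d ((1 : Equiv.Perm (Fin n)) j) * c j := by
      funext j
      simp only [Equiv.Perm.coe_one, id_eq]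
      rw [mul_comm]
    rw [this]
    exact e2
  have im_comm : ∀ i j k l a b, i ≠ j → k ≠ l → a ≠ 0 → b ≠ 0 →
      φ (Hr X i j a) * φ (Hr X k l b) = φ (Hr X k l b) * φ (Hr X i j a) := by
    intro i j k l a b hij hkl ha hb
    exact diag_comm _ _ _ _ (hW.hmono i j a hij ha) (hW.hmono k l b hkl hb)
  have kker : ∀ i j k l a b, i ≠ j → k ≠ l → a ≠ 0 → b ≠ 0 →
      φ (kp (Hr X i j a) (Hr X k l b)) = 1 := by
    intro i j k l a b hij hkl ha hb
    unfold kp
    rw [map_mul, map_mul, map_mul, map_inv, map_inv, im_comm i j k l a b hij hkl ha hb]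
    group
  -- a product formula up to the kernel
  have split : ∀ i j a b, i ≠ j → a ≠ 0 → b ≠ 0 → ∃ z, φ z = 1 ∧
      Hr X i j (a * b) = Hr X i j a * Hr X i j b * z := by
    intro i j a b hij ha hb
    refine ⟨(Hr X i j a * Hr X i j b)⁻¹ * Hr X i j (a * b), ?_, by group⟩
    rw [map_mul, map_inv, map_mul, im_mul i j a b hij ha hb]
    group
  -- main claim for three distinct indices
  have main : ∀ i j k, i ≠ j → j ≠ k → i ≠ k → ∀ a b, a ≠ 0 → b ≠ 0 →
      kp (Hr X i j a) (Hr X i k b) = 1 := by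
    intro i j k hij hjk hik
    have cen : ∀ a b, a ≠ 0 → b ≠ 0 → ∀ x : E, x * kp (Hr X i j a) (Hr X i k b) =
        kp (Hr X i j a) (Hr X i k b) * x := fun a b ha hb x =>
      kc _ (kker i j i k a b hij hik ha hb) x
    have cen' : ∀ a b, a ≠ 0 → b ≠ 0 → ∀ x : E, x * kp (Hr X i k a) (Hr X i j b) =
        kp (Hr X i k a) (Hr X i j b) * x := fun a b ha hb x =>
      kc _ (kker i k i j a b hik hij ha hb) x
    have bl : ∀ a a' b, a ≠ 0 → a' ≠ 0 → b ≠ 0 → kp (Hr X i j (a * a')) (Hr X i k b) =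
        kp (Hr X i j a) (Hr X i k b) * kp (Hr X i j a') (Hr X i k b) := by
      intro a a' b ha ha' hb
      obtain ⟨z, hz, he⟩ := split i j a a' hij ha ha'
      rw [he, kp_z (kc z hz), kp_mul (cen a' b ha' hb)]
    have br : ∀ a b b', a ≠ 0 → b ≠ 0 → b' ≠ 0 → kp (Hr X i j a) (Hr X i k (b * b')) =
        kp (Hr X i j a) (Hr X i k b) * kp (Hr X i j a) (Hr X i k b') := by
      intro a b b' ha hb hb'
      obtain ⟨z, hz, he⟩ := split i k b b' hik hb hb'
      rw [he, kp_zr (kc z hz), kp_mulr (cen' b' a hb' ha) (cen' b a hb ha)]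
    -- skew symmetry
    have sk : ∀ a b, a ≠ 0 → b ≠ 0 → kp (Hr X i j a) (Hr X i k b) =
        (kp (Hr X i j b) (Hr X i k a))⁻¹ := by
      intro a b ha hb
      have hg := hW.wmono j k 1 hjk one_ne_zero
      obtain ⟨g, hgdef⟩ : ∃ g, g = Wr X j k 1 := ⟨_, rfl⟩
      rw [← hgdef] at hg
      have si : Equiv.swap j k i = i := Equiv.swap_apply_of_ne_of_ne hij hik
      have conj : ∀ l l' a, i ≠ l → i ≠ l' → Equiv.swap j k l = l' → a ≠ 0 →
          ∃ z, φ z = 1 ∧ g * Hr X i l a * g⁻¹ = Hr X i l' a * z := by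
        intro l l' a hil hil' hl ha
        have e := hA g _ _ hg i l a hil ha
        rw [si, hl] at e
        have hne : ∀ x, wc j k (1 : F) x ≠ 0 := hg.1
        obtain ⟨t, ht⟩ : ∃ t, t = wc j k (1 : F) i * (wc j k (1 : F) l)⁻¹ := ⟨_, rfl⟩
        have ht0 : t ≠ 0 := by rw [ht]; exact mul_ne_zero (hne i) (inv_ne_zero (hne l))
        rw [← ht] at e
        refine ⟨(Hr X i l' a)⁻¹ * (g * Hr X i l a * g⁻¹), ?_, by group⟩
        rw [e, map_mul, map_inv, map_mul, map_inv, mul_comm t a, im_mul i l' a t hil' ha ht0]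
        group
      obtain ⟨z, hz, e1⟩ := conj j k a hij hik (Equiv.swap_apply_left j k) ha
      obtain ⟨z', hz', e2⟩ := conj k j b hik hij (Equiv.swap_apply_right j k) hb
      have e3 : g * kp (Hr X i j a) (Hr X i k b) * g⁻¹ =
          kp (g * Hr X i j a * g⁻¹) (g * Hr X i k b * g⁻¹) := by
        unfold kp; group
      rw [cen a b ha hb g, mul_inv_cancel_right, e1, e2, kp_z (kc z hz), kp_zr (kc z' hz')] at e3
      rw [e3, kp_inv]
    have diag : ∀ a, a ≠ 0 → kp (Hr X i j a) (Hr X i k a) = 1 := by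
      intro a ha
      apply ker_sq hce (kker i j i k a a hij hik ha ha)
      have := sk a a ha ha
      nth_rewrite 1 [this]
      group
    -- the unit group is cyclic
    have : Finite Fˣ := inferInstance
    obtain ⟨u, hu⟩ := IsCyclic.exists_monoid_generator (α := Fˣ)
    have hb1 : ∀ b, b ≠ 0 → kp (Hr X i j 1) (Hr X i k b) = 1 := by
      intro b _
      rw [H1]; unfold kp; group
    have hr1 : ∀ a, a ≠ 0 → kp (Hr X i j a) (Hr X i k 1) = 1 := by
      intro b _
      rw [H1]; unfold kp; group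
    have pw2 : ∀ q : ℕ, kp (Hr X i j (u : F)) (Hr X i k ((u : F) ^ q)) = 1 := by
      intro q
      induction q with
      | zero => rw [pow_zero]; exact hr1 _ u.ne_zero
      | succ q ih =>
        rw [pow_succ, br _ _ _ u.ne_zero (pow_ne_zero q u.ne_zero) u.ne_zero, ih,
          diag _ u.ne_zero, one_mul]
    have pw : ∀ p q : ℕ, kp (Hr X i j ((u : F) ^ p)) (Hr X i k ((u : F) ^ q)) = 1 := by
      intro p q
      induction p with
      | zero => rw [pow_zero]; exact hb1 _ (pow_ne_zero q u.ne_zero)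
      | succ p ih =>
        rw [pow_succ, bl _ _ _ (pow_ne_zero p u.ne_zero) u.ne_zero (pow_ne_zero q u.ne_zero), ih,
          pw2 q, one_mul]
    intro a b ha hb
    obtain ⟨p, hp⟩ := Submonoid.mem_powers_iff _ _ |>.1 (hu (Units.mk0 a ha))
    obtain ⟨q, hq⟩ := Submonoid.mem_powers_iff _ _ |>.1 (hu (Units.mk0 b hb))
    have ea : a = (u : F) ^ p := by
      have := congrArg Units.val hp
      simpa using this.symm
    have eb : b = (u : F) ^ q := by
      have := congrArg Units.val hq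
      simpa using this.symm
    rw [ea, eb]
    exact pw p q
  -- multiplicativity
  have third : ∀ i k : Fin n, ∃ j, j ≠ i ∧ j ≠ k := by
    intro i k
    by_contra hcon
    push Not at hcon
    have hsub : (Finset.univ : Finset (Fin n)) ⊆ {i, k} := by
      intro j _
      by_cases hj : j = i
      · simp [hj]
      · simp [hcon j hj]
    have := Finset.card_le_card hsub
    rw [Finset.card_univ, Fintype.card_fin] at this
    have h2 : ({i, k} : Finset (Fin n)).card ≤ 2 := Finset.card_le_two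
    omega
  have hmul : ∀ i j a b, i ≠ j → a ≠ 0 → b ≠ 0 → Hr X i j a * Hr X i j b = Hr X i j (a * b) := by
    intro i k a b hik ha hb
    obtain ⟨j, hji, hjk⟩ := third i k
    have e := hA (Hr X i j b) 1 (hc i j b) (hW.hmono i j b hji.symm hb) i k a hik ha
    have c1 : hc i j b i = b := by simp [hc]
    have c2 : hc i j b k = 1 := by simp [hc, hik.symm, hjk.symm]
    rw [c1, c2, inv_one, mul_one] at e
    simp only [Equiv.Perm.coe_one, id_eq] at e
    have m := main i j k hji.symm hjk hik b a hb ha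
    unfold kp at m
    rw [e] at m
    have : Hr X i k (b * a) = Hr X i k a * Hr X i k b := by
      calc Hr X i k (b * a) = (Hr X i k (b * a) * (Hr X i k b)⁻¹ * (Hr X i k a)⁻¹) *
            Hr X i k a * Hr X i k b := by group
        _ = Hr X i k a * Hr X i k b := by rw [m]; group
    rw [mul_comm a b, this]
  have heqv : ∀ (g : E) (σ : Equiv.Perm (Fin n)) (c : Fin n → F), Mono (φ g) σ c →
      ∀ i j a, i ≠ j → a ≠ 0 → g * Hr X i j a * g⁻¹ = Hr X (σ i) (σ j) a := by
    intro g σ c hg i j a hij ha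
    rw [hA g σ c hg i j a hij ha, mul_comm _ a, ← hmul (σ i) (σ j) a _
      (fun h => hij (σ.injective h)) ha (mul_ne_zero (hg.1 i) (inv_ne_zero (hg.1 j)))]
    group
  have hinv : ∀ i j a, i ≠ j → a ≠ 0 → Hr X j i a = (Hr X i j a)⁻¹ := by
    intro i j a hij ha
    have e1 := hW.wsym i j a hij ha
    have e2 := hW.wsym i j 1 hij one_ne_zero
    rw [inv_one] at e2
    have e3 : Hr X j i a = Hr X i j (-a⁻¹) * (Hr X i j (-1))⁻¹ := by
      unfold Hr
      rw [e1, e2]
      group
    have e4 : Hr X i j (-a⁻¹) = Hr X i j a⁻¹ * Hr X i j (-1) := by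
      rw [hmul i j _ _ hij (inv_ne_zero ha) (neg_ne_zero.2 one_ne_zero)]
      congr 1
      ring
    have e5 : Hr X i j a * Hr X i j a⁻¹ = 1 := by
      rw [hmul i j _ _ hij ha (inv_ne_zero ha), mul_inv_cancel₀ ha, H1]
    rw [e3, e4, mul_inv_cancel_right]
    exact eq_inv_of_mul_eq_one_right e5
  have hcom : ∀ i j k l a b, i ≠ j → k ≠ l → a ≠ 0 → b ≠ 0 →
      Hr X i j a * Hr X k l b = Hr X k l b * Hr X i j a := by
    intro i j k l a b hij hkl ha hb
    have e := heqv _ 1 _ (hW.hmono i j a hij ha) k l b hkl hb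
    simp only [Equiv.Perm.coe_one, id_eq] at e
    calc Hr X i j a * Hr X k l b = (Hr X i j a * Hr X k l b * (Hr X i j a)⁻¹) * Hr X i j a := by
          group
      _ = Hr X k l b * Hr X i j a := by rw [e]
  have htri : ∀ i j k a, i ≠ j → j ≠ k → i ≠ k → a ≠ 0 →
      Hr X j k a * Hr X i j a = Hr X i k a := by
    intro i j k a hij hjk hik ha
    obtain ⟨z, hz⟩ : ∃ z, z = Hr X j k a * Hr X i j a * (Hr X i k a)⁻¹ := ⟨_, rfl⟩
    have hφ : φ z = 1 := by
      have e1 := hW.hmono i k a hik ha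
      have e2 := m1 _ _ _ _ _ _ (hW.hmono j k a hjk ha) (hW.hmono i j a hij ha)
      rw [mul_one] at e2
      have e3 : φ (Hr X j k a) * φ (Hr X i j a) = φ (Hr X i k a) := by
        refine mono_ext e2 ?_
        have : (fun l => hc j k a ((1 : Equiv.Perm (Fin n)) l) * hc i j a l) = hc i k a := by
          funext l
          unfold hc
          simp only [Equiv.Perm.coe_one, id_eq]
          by_cases h1 : l = i
          · subst h1
            simp [hij, hik]
          · by_cases h2 : l = j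
            · subst h2
              simp [h1, hjk, ha]
            · by_cases h3 : l = k
              · subst h3
                simp [h1, h2]
              · simp [h1, h2, h3]
        rw [this]
        exact e1
      rw [hz, map_mul, map_mul, map_inv, e3]
      group
    have hg := hW.wmono j k 1 hjk one_ne_zero
    have si : Equiv.swap j k i = i := Equiv.swap_apply_of_ne_of_ne hij hik
    have c1 := heqv _ _ _ hg j k a hjk ha
    have c2 := heqv _ _ _ hg i j a hij ha
    have c3 := heqv _ _ _ hg i k a hik ha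
    rw [Equiv.swap_apply_left, Equiv.swap_apply_right, hinv j k a hjk ha] at c1
    rw [si, Equiv.swap_apply_left] at c2
    rw [si, Equiv.swap_apply_right] at c3
    have hz2 : z = (Hr X j k a)⁻¹ * Hr X i k a * (Hr X i j a)⁻¹ := by
      have e := kc z hφ (Wr X j k 1)
      have e' : Wr X j k 1 * z * (Wr X j k 1)⁻¹ = z := by rw [e]; group
      rw [← e', hz]
      calc Wr X j k 1 * (Hr X j k a * Hr X i j a * (Hr X i k a)⁻¹) * (Wr X j k 1)⁻¹
          = (Wr X j k 1 * Hr X j k a * (Wr X j k 1)⁻¹) *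
            (Wr X j k 1 * Hr X i j a * (Wr X j k 1)⁻¹) *
            (Wr X j k 1 * Hr X i k a * (Wr X j k 1)⁻¹)⁻¹ := by group
        _ = _ := by rw [c1, c2, c3]
    have hzz : z * z = 1 := by
      nth_rewrite 1 [hz]
      rw [hz2]
      have q1 := hcom j k i j a a hjk hij ha ha
      have q2 := hcom j k i k a a hjk hik ha ha
      have q3 := hcom i j i k a a hij hik ha ha
      have w1 : Commute (Hr X j k a) (Hr X i j a) := q1
      have w2 : Commute (Hr X j k a) (Hr X i k a) := q2
      have w3 : Commute (Hr X i j a) (Hr X i k a) := q3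
      calc Hr X j k a * Hr X i j a * (Hr X i k a)⁻¹ *
            ((Hr X j k a)⁻¹ * Hr X i k a * (Hr X i j a)⁻¹)
          = Hr X j k a * Hr X i j a * ((Hr X i k a)⁻¹ * (Hr X j k a)⁻¹) * Hr X i k a *
              (Hr X i j a)⁻¹ := by group
        _ = Hr X j k a * Hr X i j a * ((Hr X j k a)⁻¹ * (Hr X i k a)⁻¹) * Hr X i k a *
              (Hr X i j a)⁻¹ := by rw [(w2.inv_inv.eq).symm]
        _ = (Hr X j k a * Hr X i j a) * (Hr X j k a)⁻¹ * (Hr X i j a)⁻¹ := by group
        _ = (Hr X i j a * Hr X j k a) * (Hr X j k a)⁻¹ * (Hr X i j a)⁻¹ := by rw [w1.eq]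
        _ = 1 := by group
    have z1 : z = 1 := ker_sq hce hφ hzz
    rw [z1] at hz
    calc Hr X j k a * Hr X i j a = (Hr X j k a * Hr X i j a * (Hr X i k a)⁻¹) * Hr X i k a := by
          group
      _ = Hr X i k a := by rw [← hz, one_mul]
  exact ⟨hmul, hinv, heqv, hcom, htri⟩

end Pool.Agent.Helper8.ML
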